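import Pool.Agent.W729.NB5

/-!
# Natural boundaries on all affine discs for a function in `A^∞` of the ball

For every `n > 1` there is a function in `A^∞(B)` (hence in the ball algebra) whose composition with
every nonconstant affine map `Φ` such that `Φ` maps the unit circle into the unit sphere has the unit
circle as its natural boundary.

Idea. Take a sequence `u k` of unit vectors in which every member of a dense sequence is repeated
infinitely often, and consider the random series
`f_x (z) = ∑ x k * 2 ^ (-k²) * exp (2 ^ k * (⟪u k, z⟫ - 1))`, `x : ℕ → {0, 1}`.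
All derivatives converge uniformly on the closed ball. The set of `x` for which some `f_x ∘ Φ`
extends across some point of the circle is a countable union of closed sets with empty interior
(the discs are parametrised by a compact set, and a single term of large index destroys every
extension with a prescribed bound and radius, since it is exponentially large just outside the
ball). So by the Baire category theorem it is not everything.
-/

set_option autoImplicit false

namespace Pool.Agent.Results.MP_ca9574_an.NaturalBoundaryAInfty

open Metric Set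

/-- The ball algebra `A(B)`: functions continuous on the closed unit ball and holomorphic in the
open unit ball. -/
def InBallAlgebra {n : ℕ} (f : EuclideanSpace ℂ (Fin n) → ℂ) : Prop :=
  ContinuousOn f (closedBall 0 1) ∧ DifferentiableOn ℂ f (ball 0 1)

/-- The class `A^∞(B)`: functions holomorphic in the open unit ball such that for every `k` the
`k`-th derivative (whose components are the partial derivatives of order `k`) extends continuously
to the closed unit ball. -/
def InAInfty {n : ℕ} (f : EuclideanSpace ℂ (Fin n) → ℂ) : Prop :=
  DifferentiableOn ℂ f (ball 0 1) ∧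
    ∀ k : ℕ, ∃ G : EuclideanSpace ℂ (Fin n) →
        ContinuousMultilinearMap ℂ (fun _ : Fin k => EuclideanSpace ℂ (Fin n)) ℂ,
      ContinuousOn G (closedBall 0 1) ∧ ∀ z ∈ ball (0 : EuclideanSpace ℂ (Fin n)) 1,
        G z = iteratedFDeriv ℂ k f z

/-- A function `g` on the open unit disc has the unit circle as its natural boundary: for no point
`τ` of the circle are there an open disc `ball c r` containing `τ` and a holomorphic function `h` on
it which equals `g` on the part of it inside the unit disc. -/
def HasCircleAsNaturalBoundary (g : ℂ → ℂ) : Prop :=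
  ∀ τ : ℂ, ‖τ‖ = 1 → ∀ (c : ℂ) (r : ℝ), τ ∈ ball c r →
    ¬ ∃ h : ℂ → ℂ, DifferentiableOn ℂ h (ball c r) ∧ ∀ l ∈ ball c r ∩ ball 0 1, h l = g l

/-- Property (NB): `f ∘ Φ` has the unit circle as natural boundary for every nonconstant affine map
`Φ l = a + l b` which maps the unit circle into the unit sphere. -/
def HasNB {n : ℕ} (f : EuclideanSpace ℂ (Fin n) → ℂ) : Prop :=
  ∀ a b : EuclideanSpace ℂ (Fin n), b ≠ 0 →
    (∀ σ : ℂ, ‖σ‖ = 1 → a + σ • b ∈ sphere (0 : EuclideanSpace ℂ (Fin n)) 1) →
      HasCircleAsNaturalBoundary (fun l => f (a + l • b))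

/-- For every `n > 1` there is a function in `A^∞(B)` and in the ball algebra with property (NB). -/
theorem result (n : ℕ) (hn : 1 < n) :
    ∃ f : EuclideanSpace ℂ (Fin n) → ℂ, InBallAlgebra f ∧ InAInfty f ∧ HasNB f := by
  obtain ⟨u, x, hu, h⟩ := W729.NB.exists_fn (n := n) (by omega)
  refine ⟨W729.NB.fn u x, ⟨W729.NB.continuousOn_fn hu x, W729.NB.differentiableOn_fn hu x⟩,
    ⟨W729.NB.differentiableOn_fn hu x, fun k => ⟨_, W729.NB.continuousOn_tsum_iteratedFDeriv hu x k,
      fun z hz => (W729.NB.iteratedFDeriv_fn hu x k z hz).symm⟩⟩, ?_⟩
  intro a b hb hab τ hτ c r hτr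
  rintro ⟨g, hg, hgf⟩
  refine h a b hb (fun σ hσ => mem_sphere_zero_iff_norm.1 (hab σ hσ)) τ hτ c r hτr ⟨g, hg, ?_⟩
  intro l hl hl1
  exact hgf l ⟨hl, mem_ball_zero_iff.2 hl1⟩

end Pool.Agent.Results.MP_ca9574_an.NaturalBoundaryAInfty
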